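import Pool.Agent.H6.TS4

namespace Pool.Agent.Results.MP_807847_an.Disproof

open Filter Topology MeasureTheory

/-- There are a closed set `F` of the circle `ℝ/2πℤ`, a trigonometric series with coefficients
tending to `0` whose symmetric partial sums tend to `0` at every point of `F`, and a finite
positive measure `μ` carried by `F` with `∑ |μ̂(n)| |a₋ₙ| < ∞` and `∑ μ̂(n) a₋ₙ ≠ 0`. Here
`fourier n t = e^{int}`, so `μ̂(n) = ∫ fourier (-n) dμ`. -/
theorem result : ∃ (F : Set (AddCircle (2 * Real.pi))) (a : ℤ → ℂ)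
    (μ : Measure (AddCircle (2 * Real.pi))),
    IsClosed F ∧ IsFiniteMeasure μ ∧ μ Fᶜ = 0 ∧ Tendsto a cofinite (𝓝 0) ∧
    (∀ t ∈ F, Tendsto (fun N : ℕ => ∑ n ∈ Finset.Icc (-(N : ℤ)) N, a n * fourier n t) atTop (𝓝 0)) ∧
    Summable (fun n : ℤ => ‖∫ t, fourier (-n) t ∂μ‖ * ‖a (-n)‖) ∧
    ∑' n : ℤ, (∫ t, fourier (-n) t ∂μ) * a (-n) ≠ 0 :=
  Pool.Agent.H6.TS.main

end Pool.Agent.Results.MP_807847_an.Disproof
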